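import Pool.Agent.Run7.h245.SR.Iface2
import Pool.Agent.N31.PF.Int

/-!
# Project SR (helper245), piece GAT: `θ` generates the integers of `L` locally at `w`

Adapted from `N31/PF/Int.lean` (theorem `int`, the case of a squarefree discriminant). helper366.
-/

set_option autoImplicit false
set_option linter.all false

open Polynomial IsDedekindDomain Matrix NumberField
open scoped Classical

namespace Pool.Agent.Run7.h366.SR

open Pool.Agent.N783.PF
open Pool.Agent.Run7.h245.SR

/-- The local form of `sqf_int`. -/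
theorem val_le {F : Type} [Field F] [NumberField F] {D : 𝓞 F} {v : HeightOneSpectrum (𝓞 F)}
    (hD : D ∉ v.asIdeal ^ 2) {t : F} (h : IsIntegral ℤ (t ^ 2 * (D : F))) :
    v.valuation F t ≤ 1 := by
  by_contra hlt
  rw [not_le] at hlt
  -- integrality
  have h1 : v.valuation F (t ^ 2 * (D : F)) ≤ 1 :=
    v.valuation_le_one (K := F) (⟨t ^ 2 * (D : F), h⟩ : 𝓞 F)
  -- squarefreeness
  have h2 : ¬ v.valuation F (D : F) ≤ WithZero.exp (-(2 : ℕ) : ℤ) := by
    intro h3
    apply hD
    have h4 : v.intValuation D ≤ WithZero.exp (-(2 : ℕ) : ℤ) := by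
      rwa [HeightOneSpectrum.valuation_of_algebraMap] at h3
    exact (v.intValuation_le_pow_iff_mem D 2).mp h4
  have hD0 : v.valuation F (D : F) ≠ 0 := by
    intro h0
    rw [h0] at h2
    exact h2 zero_le'
  have ht0 : v.valuation F t ≠ 0 := (lt_trans zero_lt_one hlt).ne'
  rw [map_mul, map_pow] at h1
  obtain ⟨a, ha⟩ : ∃ a : ℤ, v.valuation F t = WithZero.exp a :=
    ⟨WithZero.log (v.valuation F t), (WithZero.exp_log ht0).symm⟩
  obtain ⟨b, hb⟩ : ∃ b : ℤ, v.valuation F (D : F) = WithZero.exp b :=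
    ⟨WithZero.log (v.valuation F (D : F)), (WithZero.exp_log hD0).symm⟩
  rw [ha, hb, ← WithZero.exp_nsmul, ← WithZero.exp_add, ← WithZero.exp_zero,
    WithZero.exp_le_exp] at h1
  rw [ha, ← WithZero.exp_zero, WithZero.exp_lt_exp] at hlt
  rw [hb, WithZero.exp_le_exp] at h2
  simp only [nsmul_eq_mul] at h1
  push_cast at h1 h2
  omega

/-- A denominator prime to `w`. -/
theorem exists_den {F L : Type} [Field F] [NumberField F] [Field L] [NumberField L] [Algebra F L]
    (w : HeightOneSpectrum (𝓞 F)) (x : L)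
    (hx : ∀ 𝔓 : HeightOneSpectrum (𝓞 L), Ov w.asIdeal 𝔓 → 𝔓.valuation L x ≤ 1) :
    ∃ m : 𝓞 F, m ∉ w.asIdeal ∧ IsIntegral ℤ (algebraMap F L (m : F) * x) := by
  -- the ideal of the denominators
  let D : Ideal (𝓞 L) :=
    { carrier := {d | IsIntegral ℤ ((d : L) * x)}
      add_mem' := by
        intro a b ha hb
        have : (((a + b : 𝓞 L) : L)) * x = (a : L) * x + (b : L) * x := by
          push_cast
          ring
        rw [Set.mem_setOf_eq, this]
        exact IsIntegral.add ha hb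
      zero_mem' := by
        rw [Set.mem_setOf_eq]
        simp only [map_zero, zero_mul]
        exact isIntegral_zero
      smul_mem' := by
        intro c a ha
        have : (((c • a : 𝓞 L) : L)) * x = (c : L) * ((a : L) * x) := by
          rw [smul_eq_mul]
          push_cast
          ring
        rw [Set.mem_setOf_eq, this]
        exact IsIntegral.mul c.2 ha }
  have hmem : ∀ d : 𝓞 L, d ∈ D ↔ IsIntegral ℤ ((d : L) * x) := fun d => Iff.rfl
  by_contra hcon
  push Not at hcon
  have hle : D.comap (algebraMap (𝓞 F) (𝓞 L)) ≤ w.asIdeal := by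
    intro m hm
    by_contra hmw
    refine hcon m hmw ?_
    have h1 := (hmem _).1 (Ideal.mem_comap.1 hm)
    exact h1
  obtain ⟨Q, hQ1, hQ2, hQ3⟩ := Ideal.exists_ideal_over_prime_of_isIntegral w.asIdeal D hle
  have hQ0 : Q ≠ ⊥ := by
    rintro rfl
    apply w.ne_bot
    rw [← hQ3]
    exact Ideal.comap_bot_of_injective _ (FaithfulSMul.algebraMap_injective (𝓞 F) (𝓞 L))
  let 𝔓 : HeightOneSpectrum (𝓞 L) := ⟨Q, hQ2, hQ0⟩
  have hov : Ov w.asIdeal 𝔓 := by
    intro a ha
    rw [← hQ3] at ha
    exact ha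
  obtain ⟨n, d, hnd⟩ := 𝔓.exists_primeCompl_mul_eq_of_integer x (hx 𝔓 hov)
  apply d.2
  apply hQ1
  rw [hmem, mul_comm, hnd]
  exact n.2

/-- **GAT**. -/
theorem gat : S_GAT := by
  intro g F L _ _ _ _ _ f θ h w hdw x hx
  haveI := N31.PF.fin h
  have hθ := N31.PF.theta_int h
  have hd0 : dsc g f ≠ 0 := by
    intro h0
    apply hdw
    rw [h0]
    exact Ideal.zero_mem _
  obtain ⟨m₁, hm₁, hy⟩ := exists_den w x hx
  set y := algebraMap F L (m₁ : F) * x with hydef
  obtain ⟨c, hc⟩ := h.gen y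
  have key : ∀ i₀, w.valuation F (c i₀) ≤ 1 := by
    intro i₀
    obtain ⟨m, hm⟩ := N31.PF.dis h hd0
    set P : Matrix (Fin (2 * g + 1)) (Fin (2 * g + 1)) F := (1 : Matrix _ _ F).updateCol i₀ c
      with hP
    have hdet : P.det = c i₀ := by
      rw [hP, ← cramer_apply, cramer_one]
      rfl
    have h1 : IsIntegral ℤ (Algebra.discr F
        ((fun i : Fin (2 * g + 1) => θ ^ (i : ℕ)) ᵥ* P.map (algebraMap F L))) := by
      apply Algebra.discr_isIntegral
      intro j
      have e : ((fun i : Fin (2 * g + 1) => θ ^ (i : ℕ)) ᵥ* P.map (algebraMap F L)) j =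
          if j = i₀ then y else θ ^ (j : ℕ) := by
        rw [Matrix.vecMul, dotProduct]
        simp only [Matrix.map_apply]
        split_ifs with hj
        · subst hj
          rw [hc]
          refine Finset.sum_congr rfl fun i _ => ?_
          rw [hP, updateCol_self, mul_comm]
        · rw [Finset.sum_eq_single j]
          · rw [hP, updateCol_ne hj, one_apply_eq, map_one, mul_one]
          · intro i _ hij
            rw [hP, updateCol_ne hj, one_apply_ne hij, map_zero, mul_zero]
          · intro h0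
            exact absurd (Finset.mem_univ _) h0
      rw [e]
      split_ifs
      · exact hy
      · exact hθ.pow _
    rw [Algebra.discr_of_matrix_vecMul, hdet, hm] at h1
    apply val_le hdw
    have h2 : IsIntegral ℤ ((-1 : F) ^ m) := (isIntegral_one.neg).pow m
    have h3 := h2.mul h1
    have e2 : (-1 : F) ^ m * (-1 : F) ^ m = 1 := by
      rw [← mul_pow, neg_one_mul, neg_neg, one_pow]
    have e : (-1 : F) ^ m * (c i₀ ^ 2 * ((-1) ^ m * algebraMap (𝓞 F) F (dsc g f))) =
        c i₀ ^ 2 * ((dsc g f : 𝓞 F) : F) := by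
      linear_combination (c i₀ ^ 2 * ((dsc g f : 𝓞 F) : F)) * e2
    rwa [e] at h3
  -- denominators of the coefficients
  choose n d hnd using fun i => w.exists_primeCompl_mul_eq_of_integer (c i) (key i)
  set m₂ : 𝓞 F := ∏ i, (d i : 𝓞 F) with hm₂
  have hm₂w : m₂ ∉ w.asIdeal := (∏ i, d i : w.asIdeal.primeCompl).2 ∘ fun h0 => by
    rw [hm₂] at h0
    simpa using h0
  have hce : ∀ i, ∃ a : 𝓞 F, (a : F) = (m₂ : F) * c i := by
    intro i
    refine ⟨(∏ j ∈ Finset.univ.erase i, (d j : 𝓞 F)) * n i, ?_⟩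
    have e1 : m₂ = (d i : 𝓞 F) * ∏ j ∈ Finset.univ.erase i, (d j : 𝓞 F) :=
      (Finset.mul_prod_erase Finset.univ (fun j => (d j : 𝓞 F)) (Finset.mem_univ i)).symm
    change algebraMap (𝓞 F) F _ = algebraMap (𝓞 F) F _ * c i
    rw [e1, map_mul, map_mul, ← hnd i]
    ring
  choose a ha using hce
  refine ⟨m₁ * m₂, fun h0 => ?_, ∑ i : Fin (2 * g + 1), C (a i) * X ^ (i : ℕ), ?_⟩
  · rcases (w.isPrime.mem_or_mem h0) with h1 | h1
    · exact hm₁ h1
    · exact hm₂w h1
  · have e1 : algebraMap F L (((m₁ * m₂ : 𝓞 F)) : F) * x = algebraMap F L (m₂ : F) * y := by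
      rw [hydef]
      push_cast
      ring
    rw [e1, hc, Finset.mul_sum, fF, Polynomial.map_sum, map_sum]
    refine Finset.sum_congr rfl fun i _ => ?_
    rw [Polynomial.map_mul, Polynomial.map_pow, map_X, map_C, map_mul, map_pow, aeval_X, aeval_C,
      ← mul_assoc, ← map_mul, ← ha i]

end Pool.Agent.Run7.h366.SR
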